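import Pool.Agent.Helper32.B4.St

set_option autoImplicit false

open Metric Set Filter Topology MeasureTheory
open scoped ComplexConjugate Interval

namespace Pool.Agent.Helper8.B4

open Pool.Agent.Helper32.B4 Pool.Agent.Helper32.DX Pool.Agent.Helper64.C3

private lemma ii_ee {θ : ℝ → ℝ} (hθ : Measurable θ) (a b : ℝ) :
    IntervalIntegrable (ee θ) volume a b :=
  ii_of_bdd (C := 1) (meas_ee hθ).aestronglyMeasurable (fun u _ => (norm_ee θ u).le)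

private lemma c0_cont {θ : ℝ → ℝ} (hθ : Measurable θ) : Continuous (c0 θ) := by
  have h1 := intervalIntegral.continuous_primitive (ii_ee hθ) 1
  have h2 : c0 θ = fun u => 2 * ∫ v in (1:ℝ)..u, ee θ v := by
    funext u
    rw [c0, intervalIntegral.integral_symm]
    ring
  rw [h2]
  exact continuous_const.mul h1

private lemma c0_norm (θ : ℝ → ℝ) {v : ℝ} (h0 : 0 ≤ v) (h1 : v ≤ 1) : ‖c0 θ v‖ ≤ 2 := by
  have h := intervalIntegral.norm_integral_le_of_norm_le_const (a := v) (b := 1) (C := 1)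
    (f := ee θ) (fun u _ => (norm_ee θ u).le)
  rw [abs_of_nonneg (by linarith)] at h
  rw [c0, norm_neg, norm_mul, Complex.norm_ofNat]
  linarith

private lemma mem01 {a b u : ℝ} (ha0 : 0 ≤ a) (ha1 : a ≤ 1) (hb0 : 0 ≤ b) (hb1 : b ≤ 1)
    (hu : u ∈ Ι a b) : 0 ≤ u ∧ u ≤ 1 := by
  rw [uIoc, mem_Ioc] at hu
  exact ⟨(le_min ha0 hb0).trans hu.1.le, hu.2.trans (max_le ha1 hb1)⟩

private noncomputable def g1 (θ : ℝ → ℝ) (v : ℝ) : ℂ := (v : ℂ) * ee θ v ^ 2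
private noncomputable def g2 (θ : ℝ → ℝ) (v : ℝ) : ℂ :=
  (v : ℂ) * ee θ v ^ 2 * c0 θ v + (v : ℂ) ^ 2 * ee θ v ^ 3

private lemma g1_norm (θ : ℝ → ℝ) {v : ℝ} (h0 : 0 ≤ v) (h1 : v ≤ 1) : ‖g1 θ v‖ ≤ 1 := by
  rw [g1, norm_mul, norm_pow, norm_ee, Complex.norm_real, Real.norm_of_nonneg h0]
  simpa using h1

private lemma g2_norm (θ : ℝ → ℝ) {v : ℝ} (h0 : 0 ≤ v) (h1 : v ≤ 1) : ‖g2 θ v‖ ≤ 3 := by
  have h2 := c0_norm θ h0 h1
  have e1 : ‖(v : ℂ) * ee θ v ^ 2 * c0 θ v‖ ≤ 2 := by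
    rw [norm_mul, norm_mul, norm_pow, norm_ee, Complex.norm_real, Real.norm_of_nonneg h0]
    have := norm_nonneg (c0 θ v)
    nlinarith
  have e2 : ‖(v : ℂ) ^ 2 * ee θ v ^ 3‖ ≤ 1 := by
    rw [norm_mul, norm_pow, norm_pow, norm_ee, Complex.norm_real, Real.norm_of_nonneg h0]
    nlinarith
  calc ‖g2 θ v‖ ≤ _ := norm_add_le _ _
    _ ≤ 2 + 1 := add_le_add e1 e2
    _ = 3 := by norm_num

private lemma g1_meas {θ : ℝ → ℝ} (hθ : Measurable θ) : Measurable (g1 θ) := by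
  unfold g1
  have := meas_ee hθ
  fun_prop

private lemma g2_meas {θ : ℝ → ℝ} (hθ : Measurable θ) : Measurable (g2 θ) := by
  unfold g2
  have := meas_ee hθ
  have h2 := (c0_cont hθ).measurable
  fun_prop

/-- difference of two tail integrals -/
private lemma split_bound {g : ℝ → ℂ} (hg : Measurable g) {C : ℝ}
    (hC : ∀ u, 0 ≤ u → u ≤ 1 → ‖g u‖ ≤ C) {α : ℝ} (h0 : 0 ≤ α) (h1 : α ≤ 1) :
    ‖(∫ v in α..1, g v) - ∫ v in (0:ℝ)..1, g v‖ ≤ C * α := by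
  have i1 : IntervalIntegrable g volume 0 α := ii_of_bdd (C := C) hg.aestronglyMeasurable
    (fun u hu => by
      obtain ⟨a, b⟩ := mem01 le_rfl zero_le_one h0 h1 hu
      exact hC u a b)
  have i2 : IntervalIntegrable g volume α 1 := ii_of_bdd (C := C) hg.aestronglyMeasurable
    (fun u hu => by
      obtain ⟨a, b⟩ := mem01 h0 h1 zero_le_one le_rfl hu
      exact hC u a b)
  rw [← intervalIntegral.integral_add_adjacent_intervals i1 i2]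
  have h := intervalIntegral.norm_integral_le_of_norm_le_const (a := 0) (b := α) (C := C)
    (f := g) (fun u hu => by
      obtain ⟨a, b⟩ := mem01 le_rfl zero_le_one h0 h1 hu
      exact hC u a b)
  rw [sub_zero, abs_of_nonneg h0] at h
  rw [show (∫ v in α..1, g v) - ((∫ v in (0:ℝ)..α, g v) + ∫ v in α..1, g v) =
    -∫ v in (0:ℝ)..α, g v by ring, norm_neg]
  exact h

private lemma c0_diff {θ : ℝ → ℝ} (hθ : Measurable θ) {α : ℝ} (h0 : 0 ≤ α) (h1 : α ≤ 1) :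
    ‖c0 θ α - c0 θ 0‖ ≤ 2 * α := by
  have h := split_bound (meas_ee hθ) (C := 1) (fun u _ _ => (norm_ee θ u).le) h0 h1
  rw [c0, c0, show -(2 * ∫ v in α..1, ee θ v) - -(2 * ∫ v in (0:ℝ)..1, ee θ v) =
    -(2 * ((∫ v in α..1, ee θ v) - ∫ v in (0:ℝ)..1, ee θ v)) by ring, norm_neg, norm_mul,
    Complex.norm_ofNat]
  linarith

private lemma c1_diff {θ : ℝ → ℝ} (hθ : Measurable θ) {α : ℝ} (h0 : 0 ≤ α) (h1 : α ≤ 1) :
    ‖c1 θ α - c1 θ 0‖ ≤ 2 * α := by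
  have h := split_bound (g1_meas hθ) (C := 1) (fun u a b => g1_norm θ a b) h0 h1
  have e : c1 θ α - c1 θ 0 = 2 * ((∫ v in α..1, g1 θ v) - ∫ v in (0:ℝ)..1, g1 θ v) := by
    unfold c1 g1
    ring
  rw [e, norm_mul, Complex.norm_ofNat]
  linarith

private lemma c2_diff {θ : ℝ → ℝ} (hθ : Measurable θ) {α : ℝ} (h0 : 0 ≤ α) (h1 : α ≤ 1) :
    ‖c2 θ α - c2 θ 0‖ ≤ 6 * α := by
  have h := split_bound (g2_meas hθ) (C := 3) (fun u a b => g2_norm θ a b) h0 h1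
  have e : c2 θ α - c2 θ 0 = -(2 * ((∫ v in α..1, g2 θ v) - ∫ v in (0:ℝ)..1, g2 θ v)) := by
    unfold c2 g2
    ring
  rw [e, norm_neg, norm_mul, Complex.norm_ofNat]
  linarith

private lemma c1_norm (θ : ℝ → ℝ) : ‖c1 θ 0‖ ≤ 2 := by
  have h := intervalIntegral.norm_integral_le_of_norm_le_const (a := 0) (b := 1) (C := 1)
    (f := g1 θ) (fun u hu => by
      obtain ⟨a, b⟩ := mem01 le_rfl zero_le_one zero_le_one le_rfl hu
      exact g1_norm θ a b)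
  rw [sub_zero, abs_one, mul_one] at h
  have e : c1 θ 0 = 2 * ∫ v in (0:ℝ)..1, g1 θ v := rfl
  rw [e, norm_mul, Complex.norm_ofNat]
  linarith

/-- approximation of the dilated function -/
private lemma approx_dil (hAE : StAE) {f : ℂ → ℂ} (hf : ClassS f) {R : ℝ} (hR0 : 0 < R)
    (hR1 : R < 1) {κ : ℝ} (hκ : 0 < κ) : ∃ θ : ℝ → ℝ, Measurable θ ∧
      ‖-(R * coeff 2 f) - c0 θ 0‖ ≤ κ ∧ ‖R ^ 2 * B1 f - c1 θ 0‖ ≤ κ ∧
      ‖R ^ 3 * B2 f - c2 θ 0‖ ≤ κ := by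
  obtain ⟨C, hC0, hC⟩ := ac_dil hf hR0 hR1
  obtain ⟨N, hN1, hN2⟩ : ∃ N : ℝ, C < N ∧ 12 / κ ≤ N :=
    ⟨max (C + 1) (12 / κ), lt_of_lt_of_le (by linarith) (le_max_left _ _), le_max_right _ _⟩
  have hN0 : 0 < N := by linarith
  obtain ⟨hh, hi, hder, g1', g2', g3', -⟩ := hC N hN1
  set h := fun w : ℂ => f (R * w) / N with hhdef
  set α := R / N with hαdef
  have hα : 0 < α := by positivity
  have hα12 : 12 * α ≤ κ := by
    have h1 : 12 ≤ N * κ := by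
      rw [div_le_iff₀ hκ] at hN2
      exact hN2
    have h2 : α ≤ 1 / N := by
      rw [hαdef]
      gcongr
    have h3 : 1 / N * 12 ≤ κ := by
      rw [div_mul_eq_mul_div, one_mul, div_le_iff₀ hN0]
      linarith
    linarith
  have hα1 := deriv_le_one hh hα hder
  set ℓ := -Real.log α with hℓ
  have hℓ0 : 0 ≤ ℓ := by
    have := Real.log_nonpos hα.le hα1
    linarith
  set μ := min 1 (κ / 2) with hμ
  have hμ0 : 0 < μ := by positivity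
  have hμ1 : μ ≤ 1 := min_le_left _ _
  have hμ2 : μ ≤ κ / 2 := min_le_right _ _
  set τ := μ / (20000 * (1 + ℓ)) with hτdef
  have hτ0 : 0 < τ := by positivity
  have hτl : τ * (20000 * (1 + ℓ)) = μ := by
    rw [hτdef]
    field_simp
  have hτℓ : 0 ≤ τ * ℓ := by positivity
  have hτ1 : τ ≤ 1 / 20000 := by nlinarith
  have hrc0 : 0 < 1 - τ := by linarith
  have hrc1 : 1 - τ < 1 := by linarith
  obtain ⟨m, p₀, H, χ, hch, hp₀, hp₀1, hqm, hHm⟩ := exists_chain hrc0 hrc1 hh hi hα hder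
  obtain ⟨hκ1, hκ2⟩ := kappa_bounds hrc0 hrc1
  set q := 2 * Real.sqrt (1 - τ) / (1 + (1 - τ)) with hq
  have hq0 : 0 < q := by linarith
  have h1q : 0 < 1 - q := by linarith
  have h1qτ : 1 - q ≤ τ := by linarith
  have hp₀0 : 0 < p₀ := by linarith
  have hm1 : m * (1 - q) ≤ ℓ := by
    have h1 : α ≤ q ^ m := by
      rw [← hqm]
      have : q ^ m * p₀ ≤ q ^ m * 1 := mul_le_mul_of_nonneg_left hp₀1 (by positivity)
      linarith
    have h2 : Real.log α ≤ m * Real.log q := by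
      rw [← Real.log_pow]
      exact Real.log_le_log hα h1
    have h3 : Real.log q ≤ q - 1 := Real.log_le_sub_one_of_pos hq0
    have h4 : (m : ℝ) * Real.log q ≤ m * (q - 1) := mul_le_mul_of_nonneg_left h3 (by positivity)
    rw [hℓ]
    linarith
  have hm2 : m * (1 - q) ^ 2 ≤ τ * ℓ := by
    calc m * (1 - q) ^ 2 = (m * (1 - q)) * (1 - q) := by ring
      _ ≤ ℓ * τ := mul_le_mul hm1 h1qτ h1q.le hℓ0
      _ = τ * ℓ := by ring
  have hbd : 2000 * (τ + m * (1 - q) ^ 2) ≤ μ := by nlinarith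
  obtain ⟨t, ht1, ht2, ht3⟩ := hAE q p₀ τ m H χ (by linarith) hκ2 hτ0.le hτ1 (by linarith) hp₀1 hch
    (hbd.trans hμ1)
  rw [hqm, ac_congr (H' := h) hHm] at ht1 ht2 ht3
  rw [g1'] at ht1
  rw [g2'] at ht2
  rw [g3'] at ht3
  have hθ : Measurable (stepf (fun i => q ^ i * p₀) t m) := stepf_meas _ _ _
  set θ := stepf (fun i => q ^ i * p₀) t m with hθdef
  refine ⟨θ, hθ, ?_, ?_, ?_⟩
  · have h1 := c0_diff hθ hα.le hα1
    calc ‖-(R * coeff 2 f) - c0 θ 0‖ =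
        ‖(-(R * coeff 2 f) - c0 θ α) + (c0 θ α - c0 θ 0)‖ := by congr 1; ring
      _ ≤ _ := norm_add_le _ _
      _ ≤ κ := by linarith
  · have h1 := c1_diff hθ hα.le hα1
    calc ‖R ^ 2 * B1 f - c1 θ 0‖ =
        ‖(R ^ 2 * B1 f - c1 θ α) + (c1 θ α - c1 θ 0)‖ := by congr 1; ring
      _ ≤ _ := norm_add_le _ _
      _ ≤ κ := by linarith
  · have h1 := c2_diff hθ hα.le hα1
    calc ‖R ^ 3 * B2 f - c2 θ 0‖ =
        ‖(R ^ 3 * B2 f - c2 θ α) + (c2 θ α - c2 θ 0)‖ := by congr 1; ring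
      _ ≤ _ := norm_add_le _ _
      _ ≤ κ := by linarith

/-- the polynomial is Lipschitz -/
private lemma poly_lip {x y w a b c : ℂ} {κ : ℝ} (hκ0 : 0 ≤ κ) (hκ1 : κ ≤ 1)
    (ha : ‖a‖ ≤ 2) (hb : ‖b‖ ≤ 2) (hx : ‖x - a‖ ≤ κ) (hy : ‖y - b‖ ≤ κ) (hw : ‖w - c‖ ≤ κ) :
    ‖(-x ^ 3 + 2 * x * y - w) - (-a ^ 3 + 2 * a * b - c)‖ ≤ 50 * κ := by
  have hx3 : ‖x‖ ≤ 3 := by
    calc ‖x‖ = ‖(x - a) + a‖ := by congr 1; ring
      _ ≤ _ := norm_add_le _ _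
      _ ≤ 3 := by linarith
  have hy3 : ‖y‖ ≤ 3 := by
    calc ‖y‖ = ‖(y - b) + b‖ := by congr 1; ring
      _ ≤ _ := norm_add_le _ _
      _ ≤ 3 := by linarith
  have e1 : ‖(x - a) * (x ^ 2 + x * a + a ^ 2)‖ ≤ κ * 19 := by
    rw [norm_mul]
    have h1 : ‖x ^ 2 + x * a + a ^ 2‖ ≤ 19 := by
      calc ‖x ^ 2 + x * a + a ^ 2‖ ≤ ‖x ^ 2‖ + ‖x * a‖ + ‖a ^ 2‖ := norm_add₃_le
        _ = ‖x‖ ^ 2 + ‖x‖ * ‖a‖ + ‖a‖ ^ 2 := by rw [norm_pow, norm_mul, norm_pow]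
        _ ≤ 3 ^ 2 + 3 * 2 + 2 ^ 2 := by gcongr
        _ = 19 := by norm_num
    exact mul_le_mul hx h1 (norm_nonneg _) hκ0
  have e2 : ‖(x - a) * y‖ ≤ κ * 3 := by
    rw [norm_mul]
    exact mul_le_mul hx hy3 (norm_nonneg _) hκ0
  have e3 : ‖a * (y - b)‖ ≤ 2 * κ := by
    rw [norm_mul]
    exact mul_le_mul ha hy (norm_nonneg _) (by norm_num)
  have e4 : (-x ^ 3 + 2 * x * y - w) - (-a ^ 3 + 2 * a * b - c) =
      -((x - a) * (x ^ 2 + x * a + a ^ 2)) + 2 * ((x - a) * y) + 2 * (a * (y - b)) - (w - c) := by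
    ring
  rw [e4]
  calc _ ≤ ‖-((x - a) * (x ^ 2 + x * a + a ^ 2)) + 2 * ((x - a) * y) + 2 * (a * (y - b))‖ +
        ‖w - c‖ := norm_sub_le _ _
    _ ≤ (‖-((x - a) * (x ^ 2 + x * a + a ^ 2))‖ + ‖2 * ((x - a) * y)‖ + ‖2 * (a * (y - b))‖) +
        ‖w - c‖ := by gcongr; exact norm_add₃_le
    _ = (‖(x - a) * (x ^ 2 + x * a + a ^ 2)‖ + 2 * ‖(x - a) * y‖ + 2 * ‖a * (y - b)‖) +
        ‖w - c‖ := by rw [norm_neg, norm_mul 2, norm_mul 2, Complex.norm_ofNat]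
    _ ≤ 50 * κ := by linarith

theorem hAP : StAE → StAP := by
  intro hAE f hf ε hε
  set M := ‖coeff 2 f‖ + ‖coeff 4 f‖ + 1 with hM
  have hM0 : 0 < M := by positivity
  obtain ⟨R, hR0, hR1, hRM⟩ : ∃ R : ℝ, 0 < R ∧ R < 1 ∧ 3 * (1 - R) * M ≤ ε / 2 := by
    refine ⟨1 - min (1 / 2) (ε / (6 * M)), ?_, ?_, ?_⟩
    · have := min_le_left (1 / 2) (ε / (6 * M))
      linarith
    · have : 0 < min (1 / 2) (ε / (6 * M)) := by positivity
      linarith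
    · have h1 := min_le_right (1 / 2) (ε / (6 * M))
      rw [le_div_iff₀ (by positivity)] at h1
      nlinarith
  obtain ⟨κ, hκ0, hκ1, hκ2⟩ : ∃ κ : ℝ, 0 < κ ∧ κ ≤ 1 ∧ 50 * κ ≤ ε / 2 :=
    ⟨min 1 (ε / 100), by positivity, min_le_left _ _, by
      have := min_le_right 1 (ε / 100)
      linarith⟩
  obtain ⟨θ, hθ, h1, h2, h3⟩ := approx_dil hAE hf hR0 hR1 hκ0
  refine ⟨θ, hθ, ?_, ?_⟩
  · have e1 : ‖coeff 2 f - R * coeff 2 f‖ ≤ ε / 2 := by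
      rw [show coeff 2 f - R * coeff 2 f = ((1 - R : ℝ) : ℂ) * coeff 2 f by push_cast; ring,
        norm_mul, Complex.norm_real, Real.norm_of_nonneg (by linarith)]
      have := norm_nonneg (coeff 2 f)
      have := norm_nonneg (coeff 4 f)
      nlinarith
    have e2 : ‖R * coeff 2 f - A2 θ‖ ≤ κ := by
      rw [A2, show R * coeff 2 f - -c0 θ 0 = -(-(R * coeff 2 f) - c0 θ 0) by ring, norm_neg]
      exact h1
    calc ‖coeff 2 f - A2 θ‖ = ‖(coeff 2 f - R * coeff 2 f) + (R * coeff 2 f - A2 θ)‖ := by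
          congr 1; ring
      _ ≤ _ := norm_add_le _ _
      _ ≤ ε := by linarith
  · have e1 : ‖coeff 4 f - R ^ 3 * coeff 4 f‖ ≤ ε / 2 := by
      rw [show coeff 4 f - R ^ 3 * coeff 4 f = ((1 - R ^ 3 : ℝ) : ℂ) * coeff 4 f by push_cast; ring,
        norm_mul, Complex.norm_real, Real.norm_of_nonneg (by nlinarith [sq_nonneg R, sq_nonneg (R + 1)])]
      have a1 := norm_nonneg (coeff 2 f)
      have a2 := norm_nonneg (coeff 4 f)
      have a3 : 1 - R ^ 3 ≤ 3 * (1 - R) := by nlinarith [sq_nonneg (R - 1), sq_nonneg (R + 1)]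
      calc (1 - R ^ 3) * ‖coeff 4 f‖ ≤ 3 * (1 - R) * M := by
            apply mul_le_mul a3 _ a2 (by linarith)
            linarith
        _ ≤ ε / 2 := hRM
    have e2 : ‖R ^ 3 * coeff 4 f - A4 θ‖ ≤ 50 * κ := by
      have h := poly_lip hκ0.le hκ1 (c0_norm θ le_rfl zero_le_one) (c1_norm θ) h1 h2 h3
      have e3 : (R : ℂ) ^ 3 * coeff 4 f = -(-(R * coeff 2 f)) ^ 3 + 2 * -(R * coeff 2 f) *
          (R ^ 2 * B1 f) - R ^ 3 * B2 f := by
        unfold B1 B2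
        ring
      rw [e3, A4]
      exact h
    calc ‖coeff 4 f - A4 θ‖ = ‖(coeff 4 f - R ^ 3 * coeff 4 f) + (R ^ 3 * coeff 4 f - A4 θ)‖ := by
          congr 1; ring
      _ ≤ _ := norm_add_le _ _
      _ ≤ ε := by linarith

end Pool.Agent.Helper8.B4
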